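import Pool.Agent.MP_93f727_an.Main

set_option autoImplicit false

namespace Pool.Agent.Results.MP_93f727_an.CorrectedIdentity

open Pool.Agent.MP_93f727_an PowerSeries

/-- For all `n`, `-1 < q < 1` and real `x, a, b, c`, as formal power series in `t`,
`∑_i t^i ψ_{n+i} / ((q;q)_i (abct;q)_{2n+i})
  = (abct q^(n-1);q)_n AW_n(x|a,b,c,t,q) / (at,bt,ct;q)_n * ∑_i t^i ψ_i / ((q;q)_i (abct;q)_i)`. -/
theorem result (q : ℝ) (hq1 : -1 < q) (hq2 : q < 1) (x a b c : ℝ) (n : ℕ) :
    W n x a b c q = qPoch (C (a * b * c * q ^ (n - 1)) * X) (C q) n * AW n x a b c q *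
      (tPoch n a b c q)⁻¹ * W 0 x a b c q := by
  have hq : |q| < 1 := abs_lt.2 ⟨hq1, hq2⟩
  have h := main_identity hq x a b c n
  rw [pR, sPoch] at h
  have h1 : tPoch n a b c q * (tPoch n a b c q)⁻¹ = 1 := by
    apply PowerSeries.mul_inv_cancel
    rw [tPoch, map_mul, map_mul, constCoeff_qPoch, constCoeff_qPoch, constCoeff_qPoch]
    norm_num
  linear_combination (-W n x a b c q) * h1 - (tPoch n a b c q)⁻¹ * h

end Pool.Agent.Results.MP_93f727_an.CorrectedIdentity
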