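import Pool.Agent.MP_93f727_an.Main

set_option autoImplicit false

namespace Pool.Agent.Results.MP_93f727_an.HoldsIffAbcZero

open Pool.Agent.MP_93f727_an PowerSeries

/-- `1 + q + ... + q^(n-1)`. -/
noncomputable def geo (q : ℝ) (n : ℕ) : ℝ := ∑ j ∈ Finset.range n, q ^ j

lemma coeff_one_mul (F K : PowerSeries ℝ) :
    coeff 1 (F * K) = constantCoeff F * coeff 1 K + coeff 1 F * constantCoeff K := by
  rw [coeff_mul, show (1 : ℕ) = 0 + 1 from rfl, Finset.Nat.antidiagonal_succ]
  simp

lemma coeff_one_qPoch (α q : ℝ) (n : ℕ) :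
    coeff 1 (qPoch (C α * X) (C q) n : PowerSeries ℝ) = -α * geo q n := by
  induction n with
  | zero => simp [qPoch_zero, geo, coeff_one]
  | succ n ih =>
    rw [qPoch_succ, coeff_one_mul, ih, constCoeff_qPoch]
    have e : (C α * X * C q ^ n : PowerSeries ℝ) = C (α * q ^ n) * X := by
      rw [map_mul, map_pow]; ring
    rw [e]
    simp only [geo, Finset.sum_range_succ, map_sub, map_mul, constantCoeff_X, mul_zero,
      constantCoeff_one, sub_zero, mul_one, coeff_one]
    norm_num
    ring

lemma coeff_one_qPoch_inv (α q : ℝ) (n : ℕ) :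
    coeff 1 ((qPoch (C α * X) (C q) n : PowerSeries ℝ)⁻¹) = α * geo q n := by
  have h1 : (qPoch (C α * X) (C q) n : PowerSeries ℝ)⁻¹ * qPoch (C α * X) (C q) n = 1 :=
    PowerSeries.inv_mul_cancel _ (by rw [constCoeff_qPoch]; exact one_ne_zero)
  have h2 := congrArg (coeff 1) h1
  rw [coeff_one_mul, coeff_one_qPoch, constCoeff_qPoch, constantCoeff_inv, constCoeff_qPoch] at h2
  simp only [inv_one, one_mul, mul_one, coeff_one, one_ne_zero, if_false] at h2
  linarith

lemma constCoeff_qPoch_inv (α q : ℝ) (n : ℕ) :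
    constantCoeff ((qPoch (C α * X) (C q) n : PowerSeries ℝ)⁻¹) = 1 := by
  rw [constantCoeff_inv, constCoeff_qPoch, inv_one]

lemma constCoeff_W (n : ℕ) (x a b c q : ℝ) :
    constantCoeff (W n x a b c q) = psi x a b c q n := by
  rw [← coeff_zero_eq_constantCoeff_apply, W, fsum, coeff_mk, zero_add, Finset.sum_range_one,
    Nat.sub_zero, coeff_zero_eq_constantCoeff_apply, map_mul, constCoeff_qPoch_inv]
  simp [qPoch_zero]

lemma coeff_one_W (n : ℕ) (x a b c q : ℝ) :
    coeff 1 (W n x a b c q) = psi x a b c q n * (a * b * c * geo q (2 * n)) +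
      psi x a b c q (n + 1) / qPoch q q 1 := by
  rw [W, fsum, coeff_mk, Finset.sum_range_succ, Finset.sum_range_one, Nat.sub_zero,
    Nat.sub_self, coeff_C_mul, coeff_zero_eq_constantCoeff_apply,
    map_mul constantCoeff, constCoeff_qPoch_inv, add_zero, coeff_one_qPoch_inv]
  simp [qPoch_zero]

lemma constCoeff_G (n : ℕ) (x a b c q : ℝ) :
    constantCoeff (G n x a b c q) = psi x a b c q n := by
  rw [← coeff_zero_eq_constantCoeff_apply, G, coeff_mk]
  simp [qPoch_zero]

lemma coeff_one_G (n : ℕ) (x a b c q : ℝ) :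
    coeff 1 (G n x a b c q) = psi x a b c q (n + 1) / qPoch q q 1 := by
  rw [G, coeff_mk, add_comm]

lemma constCoeff_tPoch (n : ℕ) (a b c q : ℝ) : constantCoeff (tPoch n a b c q) = 1 := by
  rw [tPoch, map_mul, map_mul, constCoeff_qPoch, constCoeff_qPoch, constCoeff_qPoch]
  norm_num

lemma identity_iff (n : ℕ) (x a b c q : ℝ) :
    Identity n x a b c q ↔ tPoch n a b c q * G n x a b c q = AW n x a b c q * G 0 x a b c q := by
  have h1 : tPoch n a b c q * (tPoch n a b c q)⁻¹ = 1 :=
    PowerSeries.mul_inv_cancel _ (by rw [constCoeff_tPoch]; exact one_ne_zero)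
  constructor
  · intro h
    rw [Identity] at h
    rw [h]
    linear_combination (AW n x a b c q * G 0 x a b c q) * h1
  · intro h
    rw [Identity]
    linear_combination (-G n x a b c q) * h1 + (tPoch n a b c q)⁻¹ * h

/-- The first-order discrepancy. -/
lemma discrepancy {q : ℝ} (hq : |q| < 1) (n : ℕ) (x a b c : ℝ) :
    coeff 1 (tPoch n a b c q * G n x a b c q - AW n x a b c q * G 0 x a b c q) =
      -(a * b * c) * (geo q (2 * n) + q ^ (n - 1) * geo q n) * psi x a b c q n := by
  have hm := main_identity hq x a b c n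
  rw [pR] at hm
  have h0 := congrArg constantCoeff hm
  rw [map_mul, map_mul, map_mul, constCoeff_tPoch, constCoeff_W, constCoeff_W, sPoch,
    constCoeff_qPoch] at h0
  have h1 := congrArg (coeff 1) hm
  rw [coeff_one_mul, coeff_one_mul, coeff_one_mul, map_mul, constCoeff_tPoch, constCoeff_W,
    constCoeff_W, sPoch, constCoeff_qPoch, coeff_one_qPoch, coeff_one_W, coeff_one_W] at h1
  rw [map_sub, coeff_one_mul, coeff_one_mul, constCoeff_tPoch, constCoeff_G, constCoeff_G,
    coeff_one_G, coeff_one_G]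
  simp only [psi, mul_one, one_mul] at h0
  rw [h0] at h1 ⊢
  simp only [psi, mul_zero, geo, Finset.sum_range_zero, mul_one, one_mul, zero_add] at h1 ⊢
  linear_combination -h1

lemma geo_mul (q : ℝ) (n : ℕ) : geo q n * (1 - q) = 1 - q ^ n := by
  have := geom_sum_mul q n
  rw [geo]; linear_combination -this

lemma geo_factor {q : ℝ} (hq : |q| < 1) {n : ℕ} (hn : 1 ≤ n) :
    geo q (2 * n) + q ^ (n - 1) * geo q n ≠ 0 := by
  have hq' := abs_lt.1 hq
  have h1q : 0 < 1 - q := by linarith [hq'.2]
  have e : (geo q (2 * n) + q ^ (n - 1) * geo q n) * (1 - q) =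
      (1 - q ^ n) * (1 + q ^ n + q ^ (n - 1)) := by
    have e1 := geo_mul q (2 * n)
    have e2 := geo_mul q n
    have e3 : q ^ (2 * n) = q ^ n * q ^ n := by rw [two_mul, pow_add]
    rw [e3] at e1
    linear_combination e1 + q ^ (n - 1) * e2
  intro h
  rw [h, zero_mul] at e
  have h1 : |q ^ n| < 1 := by
    rw [abs_pow]; exact pow_lt_one₀ (abs_nonneg _) hq (by omega)
  have h2 : 0 < 1 - q ^ n := by linarith [(abs_lt.1 h1).2]
  have h3 : |q ^ (n - 1)| ≤ 1 := by
    rw [abs_pow]; exact pow_le_one₀ (abs_nonneg _) hq.le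
  have h4 : q ^ n = q ^ (n - 1) * q := by rw [← pow_succ]; congr 1; omega
  have h5 : 0 < 1 + q ^ n + q ^ (n - 1) := by
    rcases le_or_gt 0 q with h | h
    · positivity
    · have h6 : |q ^ (n - 1) * (1 + q)| < 1 := by
        rw [abs_mul, abs_of_pos (by linarith [hq'.1] : 0 < 1 + q)]
        have : 0 < 1 + q := by linarith [hq'.1]
        nlinarith [abs_nonneg (q ^ (n - 1))]
      have h7 := (abs_lt.1 h6).1
      rw [h4]
      nlinarith
  have : 0 < (1 - q ^ n) * (1 + q ^ n + q ^ (n - 1)) := mul_pos h2 h5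
  linarith

open Polynomial in
lemma exists_psi_ne (a b c q : ℝ) (n : ℕ) : ∃ x : ℝ, psi x a b c q n ≠ 0 := by
  set P : ℕ → ℝ[X] := fun n => psi (Polynomial.X) (Polynomial.C a) (Polynomial.C b)
    (Polynomial.C c) (Polynomial.C q) n with hP
  have key : ∀ n, (P n).natDegree ≤ n ∧ (P n).coeff n = 2 ^ n := by
    intro n
    induction n using Nat.twoStepInduction with
    | zero => simp [hP, psi]
    | one =>
      have e : P 1 = Polynomial.C 2 * Polynomial.X - Polynomial.C (a + b + c - a * b * c) := by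
        have h2 : (Polynomial.C 2 : ℝ[X]) = 2 := map_ofNat Polynomial.C 2
        rw [h2]
        simp [hP, psi]
      rw [e]
      constructor
      · compute_degree
      · simp
    | more n h1 h2 =>
      obtain ⟨α, β, e⟩ : ∃ α β : ℝ, P (n + 2) = (Polynomial.C 2 * Polynomial.X - Polynomial.C α) *
          P (n + 1) - Polynomial.C β * P n := by
        refine ⟨(a + b + c) * q ^ (n + 1) + a * b * c * q ^ n * (1 - q ^ (n + 1) - q ^ (n + 2)),
          (1 - q ^ (n + 1)) * ((1 - a * b * q ^ n) * (1 - a * c * q ^ n) * (1 - b * c * q ^ n)),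
          ?_⟩
        have h2 : (Polynomial.C 2 : ℝ[X]) = 2 := map_ofNat Polynomial.C 2
        rw [h2]
        simp [hP, psi]
      have d1 : (Polynomial.C 2 * Polynomial.X - Polynomial.C α : ℝ[X]).natDegree ≤ 1 := by
        compute_degree
      have d2 : (Polynomial.C β * P n).natDegree ≤ n :=
        (Polynomial.natDegree_C_mul_le _ _).trans h1.1
      rw [e]
      constructor
      · refine (Polynomial.natDegree_sub_le _ _).trans (max_le ?_ (d2.trans (by omega)))
        refine (Polynomial.natDegree_mul_le).trans ?_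
        have := h2.1
        omega
      · rw [Polynomial.coeff_sub, Polynomial.coeff_eq_zero_of_natDegree_lt (p := _ * P n)
          (lt_of_le_of_lt d2 (by omega)), sub_zero, show n + 2 = 1 + (n + 1) by ring,
          Polynomial.coeff_mul_add_eq_of_natDegree_le d1 h2.1, h2.2]
        simp
        ring
  have hne : P n ≠ 0 := by
    intro h
    have := (key n).2
    rw [h] at this
    simp at this
    exact absurd this.symm (by positivity)
  by_contra hcon
  push Not at hcon
  apply hne
  apply Polynomial.funext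
  intro x
  have h1 : (P n).eval x = psi x a b c q n := by
    rw [hP]
    have := psi_map (Polynomial.evalRingHom x) (Polynomial.X) (Polynomial.C a) (Polynomial.C b)
      (Polynomial.C c) (Polynomial.C q) n
    simpa using this
  rw [h1, hcon x]
  simp

lemma W_eq_G {a b c : ℝ} (h : a * b * c = 0) (n : ℕ) (x q : ℝ) :
    W n x a b c q = G n x a b c q := by
  ext k
  rw [W, fsum, G, coeff_mk, coeff_mk, h, map_zero]
  have e : ∀ N, (qPoch (0 * X) (C q) N : PowerSeries ℝ)⁻¹ = 1 := by
    intro N
    have h1 : (qPoch (0 * X) (C q) N : PowerSeries ℝ) = 1 := by simp [qPoch]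
    rw [h1, PowerSeries.inv_eq_iff_mul_eq_one (by simp), mul_one]
  simp_rw [e, mul_one, coeff_C]
  rw [Finset.sum_range_succ, Finset.sum_eq_zero]
  · simp [add_comm]
  · intro i hi
    rw [Finset.mem_range] at hi
    rw [if_neg (by omega)]

/-- For `n ≥ 1`, `-1 < q < 1` and real `a, b, c` the identity of Q1 holds (for all `x`) if and
only if `abc = 0`; if `abc ≠ 0`, it fails for every real `x` with `ψ_n(x) ≠ 0`. -/
theorem result (q : ℝ) (hq1 : -1 < q) (hq2 : q < 1) (a b c : ℝ) (n : ℕ) (hn : 1 ≤ n) :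
    ((∀ x : ℝ, Identity n x a b c q) ↔ a * b * c = 0) ∧
    (a * b * c ≠ 0 → ∀ x : ℝ, psi x a b c q n ≠ 0 → ¬ Identity n x a b c q) := by
  have hq : |q| < 1 := abs_lt.2 ⟨hq1, hq2⟩
  have hfail : a * b * c ≠ 0 → ∀ x : ℝ, psi x a b c q n ≠ 0 → ¬ Identity n x a b c q := by
    intro habc x hx h
    rw [identity_iff] at h
    have h1 := discrepancy hq n x a b c
    rw [h, sub_self, map_zero] at h1
    have h2 : -(a * b * c) * (geo q (2 * n) + q ^ (n - 1) * geo q n) * psi x a b c q n ≠ 0 :=
      mul_ne_zero (mul_ne_zero (neg_ne_zero.2 habc) (geo_factor hq hn)) hx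
    exact h2 h1.symm
  refine ⟨⟨?_, ?_⟩, hfail⟩
  · intro h
    by_contra habc
    obtain ⟨x, hx⟩ := exists_psi_ne a b c q n
    exact hfail habc x hx (h x)
  · intro habc x
    rw [identity_iff]
    have h1 := main_identity hq x a b c n
    rw [W_eq_G habc, W_eq_G habc, pR, sPoch, habc, zero_mul, map_zero] at h1
    have e : (qPoch (0 * X) (C q) n : PowerSeries ℝ) = 1 := by simp [qPoch]
    rw [e, mul_one] at h1
    exact h1.symm

end Pool.Agent.Results.MP_93f727_an.HoldsIffAbcZero
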